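import Mathlib

/-! Growth of the moments of the Ulam-Kac adder. -/

open Filter Topology Real Finset MeasureTheory ProbabilityTheory

namespace Pool.Agent.H.MP_a2947a_pr

def th (m : ℕ) : ℚ := [1, 1, 1, 1, 8 / 7, 4 / 3, 3 / 2, 7 / 4, 2, 5 / 2, 13 / 4].getD m 1

lemma grid : ∀ m < 11, 0 < th m ∧ ∀ k < 20, m * th m * ((k + 1 : ℕ) / 20) +
    (1 - (k : ℕ) / 20) * (∑ i ∈ range m, (1 + ((k + 1 : ℕ) : ℚ) / 20) ^ i) / th m ≤ 1359 / 1000 * (149 / 100) ^ m := by
  decide +kernel

lemma term {r : ℝ} (h0 : 0 ≤ r) (h1 : r ≤ 1) {i : ℕ} (hi : 0 < i) : (1 - r) * (1 + r) ^ i ≤ 3 / 4 * 2 ^ i / i := by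
  have a : (1 + r) ^ i ≤ 2 ^ i * exp (-(i * ((1 - r) / 2))) := by
    rw [← mul_neg, exp_nat_mul, ← mul_pow]
    exact pow_le_pow_left₀ (by linarith) (by linarith [add_one_le_exp (-((1 - r) / 2))]) i
  have b := mul_exp_neg_le_exp_neg_one (i * ((1 - r) / 2))
  have c := exp_neg_one_lt_d9
  have d : (0 : ℝ) < i := by positivity
  have e : (0 : ℝ) < 2 ^ i := by positivity
  rw [le_div_iff₀ d]
  nlinarith [mul_le_mul_of_nonneg_left a (mul_nonneg (sub_nonneg.2 h1) d.le)]

lemma sumb {m : ℕ} (h : 11 ≤ m) : 1 + ∑ i ∈ range m, (3 / 4 * 2 ^ i / i : ℝ) ≤ 4 / 3 * 2 ^ m / m := by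
  induction m, h using Nat.le_induction with
  | base => simp only [sum_range_succ]; norm_num
  | succ m h ih =>
    have : (11 : ℝ) ≤ m := by exact_mod_cast h
    have p : (0 : ℝ) < 2 ^ m := by positivity
    rw [sum_range_succ, ← add_assoc]
    refine (add_le_add_left ih _).trans ?_
    push_cast
    rw [← add_div, div_le_div_iff₀ (by linarith) (by linarith), pow_succ]
    nlinarith

lemma big {m : ℕ} (h : 11 ≤ m) : (16 / 3 * 2 ^ m : ℝ) ≤ (1359 / 1000 * (149 / 100) ^ m) ^ 2 := by
  induction m, h using Nat.le_induction with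
  | base => norm_num
  | succ m h ih =>
    have : (0 : ℝ) < 2 ^ m := by positivity
    rw [pow_succ, pow_succ (149 / 100 : ℝ), ← mul_assoc (1359 / 1000 : ℝ), mul_pow _ (149 / 100 : ℝ)]
    nlinarith

lemma num (m : ℕ) : ∃ θ > (0 : ℝ), ∀ r, 0 ≤ r → r ≤ 1 →
    m * θ * r + (1 - r) * (∑ i ∈ range m, (1 + r) ^ i) / θ ≤ 1359 / 1000 * (149 / 100) ^ m := by
  rcases lt_or_ge m 11 with h | h
  · obtain ⟨p, g⟩ := grid m h
    have p' : (0 : ℝ) < th m := by exact_mod_cast p
    refine ⟨th m, p', fun r r0 r1 => ?_⟩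
    obtain ⟨k, k0, k1, k2⟩ : ∃ k < 20, (k : ℕ) / 20 ≤ r ∧ r ≤ (k + 1 : ℕ) / 20 := by
      have a := Nat.floor_le (show 0 ≤ 20 * r by linarith)
      have b := Nat.lt_floor_add_one (20 * r)
      by_cases c : ⌊20 * r⌋₊ < 20
      · exact ⟨_, c, by linarith, by push_cast; linarith⟩
      · have : (20 : ℝ) ≤ ⌊20 * r⌋₊ := by exact_mod_cast not_lt.1 c
        exact ⟨19, by norm_num, by push_cast; linarith, by push_cast; linarith⟩
    have := (Rat.cast_le (K := ℝ)).2 (g k k0)
    push_cast at this k2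
    refine le_trans ?_ this
    gcongr
    linarith
  · set G : ℝ := 1359 / 1000 * (149 / 100) ^ m
    have G0 : 0 < G := by positivity
    have m0 : (0 : ℝ) < m := by exact_mod_cast (by omega)
    refine ⟨G / (2 * m), by positivity, fun r r0 r1 => ?_⟩
    have a : (1 - r) * ∑ i ∈ range m, (1 + r) ^ i ≤ 4 / 3 * 2 ^ m / m := by
      refine le_trans ?_ (sumb h)
      obtain ⟨n, rfl⟩ := Nat.exists_eq_add_of_le' (show 1 ≤ m by omega)
      rw [mul_sum, sum_range_succ', sum_range_succ']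
      have := sum_le_sum fun i (_ : i ∈ range n) => term r0 r1 i.succ_pos
      simp only [Nat.succ_eq_add_one] at this
      simp only [pow_zero, Nat.cast_zero, div_zero]
      linarith
    have b : 16 / 3 * 2 ^ m ≤ G ^ 2 := big h
    have c : (1 - r) * (∑ i ∈ range m, (1 + r) ^ i) / (G / (2 * m)) ≤ G / 2 := by
      rw [div_le_iff₀ (by positivity), show G / 2 * (G / (2 * m)) = G ^ 2 / 4 / m by field_simp; norm_num]
      exact a.trans (div_le_div_of_nonneg_right (by linarith) m0.le)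
    rw [show m * (G / (2 * m)) * r = G / 2 * r by field_simp]
    nlinarith

lemma pw {A B q s : ℝ} (hA : 0 ≤ A) (hq : A ≤ q) (hB : 0 ≤ B) (h : A + B ≤ q * s) (s0 : 0 ≤ s) (m : ℕ) :
    q * (A + B) ^ m ≤ q * A ^ m + B * q ^ m * ∑ i ∈ range m, s ^ i := by
  have q0 := hA.trans hq
  induction m with
  | zero => simp
  | succ m ih =>
    have a := mul_le_mul_of_nonneg_left ih hA
    have b := mul_le_mul_of_nonneg_left (pow_le_pow_left₀ (by linarith) h m) (mul_nonneg q0 hB)
    have c : A * (B * q ^ m * ∑ i ∈ range m, s ^ i) ≤ q * (B * q ^ m * ∑ i ∈ range m, s ^ i) :=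
      mul_le_mul_of_nonneg_right hq (by positivity)
    rw [sum_range_succ, pow_succ, pow_succ, pow_succ]
    rw [mul_pow] at b
    nlinarith

lemma pt {r y a : ℝ} (r1 : r ≤ 1) (y0 : 0 ≤ y) (y1 : y ≤ r) (a0 : 0 ≤ a) (m : ℕ) :
    (1 + a * r + (1 + a) * y) ^ m ≤ 1 + (1 + 2 * a) ^ m * (a * m * r + y * ∑ i ∈ range m, (1 + r) ^ i) := by
  have r0 := y0.trans y1
  have u := pw (A := 1 + a * r) (B := (1 + a) * y) (q := 1 + 2 * a) (s := 1 + r) (by positivity)
    (by nlinarith) (by positivity) (by nlinarith) (by positivity) m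
  have v := pw (A := 1) (B := a * r) (q := 1 + 2 * a) (s := 1) zero_le_one (by linarith) (by positivity)
    (by nlinarith) zero_le_one m
  simp only [one_pow, sum_const, card_range, nsmul_eq_mul, mul_one] at v
  have p : 0 ≤ (1 + 2 * a) ^ m * ∑ i ∈ range m, (1 + r) ^ i := by positivity
  have p' : 0 ≤ (1 + 2 * a) ^ m * m * r * a := by positivity
  refine le_of_mul_le_mul_left ?_ (show 0 < 1 + 2 * a by positivity)
  nlinarith [mul_nonneg (mul_nonneg a0 y0) p, mul_nonneg a0 p']

lemma ev {f : ℕ → ℝ} (h : ∀ᶠ n in atTop, f n ≤ f (n + 1)) : ∃ b, ∀ᶠ n in atTop, b ≤ f n := by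
  obtain ⟨N, hN⟩ := eventually_atTop.1 h
  exact ⟨f N, eventually_atTop.2 ⟨N, Nat.le_induction le_rfl fun n l ih => ih.trans (hN n l)⟩⟩

lemma sq_top : Tendsto (fun n : ℕ => √(n : ℝ)) atTop atTop := tendsto_sqrt_atTop.comp tendsto_natCast_atTop_atTop

lemma sq_top' : Tendsto (fun n : ℕ => √(n + 1 : ℝ)) atTop atTop :=
  tendsto_sqrt_atTop.comp (tendsto_atTop_add_const_right _ _ tendsto_natCast_atTop_atTop)

lemma up {V : ℕ → ℝ} {g c : ℝ} (V0 : ∀ n, 0 < V n) (g0 : 0 ≤ g) (hc : 2 * g < c)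
    (h : ∀ᶠ n : ℕ in atTop, V (n + 1) ≤ (1 + g / √(n + 1)) * V n) : ∀ᶠ n : ℕ in atTop, log (V n) ≤ c * √n := by
  obtain ⟨b, hb⟩ := ev (f := fun n => 2 * g * √n - log (V n)) (h.mono fun n p => by
    have s := sq_sqrt (show (0 : ℝ) ≤ n + 1 by positivity)
    have t := sq_sqrt (show (0 : ℝ) ≤ n by positivity)
    have s0 : 0 < √(n + 1 : ℝ) := by positivity
    have a := log_le_log (V0 _) p
    rw [log_mul (by positivity) (V0 n).ne'] at a
    have b := log_le_sub_one_of_pos (show 0 < 1 + g / √(n + 1) by positivity)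
    have d : g / √(n + 1) ≤ 2 * g * (√(n + 1) - √n) := by
      rw [div_le_iff₀ s0]
      nlinarith [mul_nonneg g0 (sq_nonneg (√(n + 1 : ℝ) - √n))]
    push_cast
    linarith)
  filter_upwards [hb, (sq_top.const_mul_atTop (sub_pos.2 hc)).eventually_ge_atTop (-b)] with n p q
  linarith

lemma lo {V : ℕ → ℝ} {g c : ℝ} (V0 : ∀ n, 0 < V n) (c0 : 0 ≤ c) (hc : c < 2 * g)
    (h : ∀ᶠ n : ℕ in atTop, (1 + g / √(n + 1)) * V n ≤ V (n + 1)) : ∀ᶠ n : ℕ in atTop, c * √n ≤ log (V n) := by
  obtain ⟨e, e1, e2⟩ := exists_between hc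
  obtain ⟨b, hb⟩ := ev (f := fun n => log (V n) - e * √n) (by
    filter_upwards [h, (sq_top'.const_mul_atTop (sub_pos.2 e2)).eventually_ge_atTop (g + e * g)] with n p q
    have s := sq_sqrt (show (0 : ℝ) ≤ n + 1 by positivity)
    have t := sq_sqrt (show (0 : ℝ) ≤ n by positivity)
    have s1 : 1 ≤ √(n + 1 : ℝ) := one_le_sqrt.2 (by linarith [Nat.cast_nonneg (α := ℝ) n])
    have t0 := sqrt_nonneg (n : ℝ)
    have g0 : 0 < g := by linarith
    have a := log_le_log (mul_pos (by positivity) (V0 n)) p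
    rw [log_mul (by positivity) (V0 n).ne'] at a
    have b := one_sub_inv_le_log_of_pos (show 0 < 1 + g / √(n + 1) by positivity)
    push_cast
    generalize √(n + 1 : ℝ) = u at *
    generalize √(n : ℝ) = v at *
    have uv : u - 1 ≤ v := by nlinarith
    have d : e * (u - v) ≤ 1 - (1 + g / u)⁻¹ := by
      rw [show 1 - (1 + g / u)⁻¹ = g / (u + g) by field_simp; ring, show u - v = 1 / (u + v) by
        rw [eq_div_iff (by positivity)]; nlinarith, mul_one_div, div_le_div_iff₀ (by positivity) (by positivity)]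
      nlinarith
    linarith)
  filter_upwards [hb, (sq_top.const_mul_atTop (sub_pos.2 e1)).eventually_ge_atTop (-b)] with n p q
  linarith

variable {Ω : Type*} [mΩ : MeasurableSpace Ω] {P : Measure Ω} [IsProbabilityMeasure P]
  {U : (n : ℕ) → Ω → Fin (n + 1)} {X : ℕ → Ω → ℕ}

structure Su (P : Measure Ω) (U : (n : ℕ) → Ω → Fin (n + 1)) (X : ℕ → Ω → ℕ) : Prop where
  me : ∀ n, Measurable (U n)
  ind : iIndepFun U P
  un : ∀ n k, P.real {ω | U n ω = k} = 1 / (n + 1)
  x0 : ∀ ω, X 0 ω = 1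
  xs : ∀ n ω, X (n + 1) ω = X n ω + X (U n ω) ω

def M (U : (n : ℕ) → Ω → Fin (n + 1)) (n : ℕ) : MeasurableSpace Ω :=
  ⨆ j ∈ Set.Iio n, MeasurableSpace.comap (U j) inferInstance

def Dep (X : ℕ → Ω → ℕ) (n : ℕ) (f : Ω → ℝ) : Prop := ∀ ω ω', (∀ i ≤ n, X i ω = X i ω') → f ω = f ω'

namespace Su
variable (h : Su P U X)
include h

lemma mono (ω : Ω) : Monotone fun n => X n ω := monotone_nat_of_le_succ fun n => by simp [h.xs]

lemma one (n : ℕ) (ω : Ω) : 1 ≤ X n ω := h.x0 ω ▸ h.mono ω n.zero_le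

lemma two (n : ℕ) (ω : Ω) : X n ω ≤ 2 ^ n := by
  induction n with
  | zero => simp [h.x0]
  | succ n ih => have := h.mono ω (U n ω).is_le; simp only at this; rw [h.xs, pow_succ]; omega

lemma mle (n : ℕ) : M U n ≤ mΩ := iSup₂_le fun j _ => (h.me j).comap_le

lemma mx (n : ℕ) : ∀ i ≤ n, Measurable[M U n] (X i) := by
  intro i
  induction i using Nat.strong_induction_on with
  | _ i ih =>
    intro l
    cases i with
    | zero => rw [show X 0 = fun _ => 1 from funext h.x0]; exact measurable_const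
    | succ i =>
      rw [show X (i + 1) = fun ω => X i ω + ∑ k : Fin (i + 1), if U i ω = k then X k ω else 0 from
        funext fun ω => by simp [h.xs]]
      have u : Measurable[M U n] (U i) := measurable_iff_comap_le.2
        (le_iSup₂_of_le (f := fun j (_ : j ∈ Set.Iio n) => MeasurableSpace.comap (U j) inferInstance) i l le_rfl)
      refine (ih i (by omega) (by omega)).add (Finset.measurable_sum _ fun k _ => ?_)
      exact Measurable.ite (u (measurableSet_singleton k)) (ih k k.2 (by omega)) measurable_const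

lemma dep {n : ℕ} {f : Ω → ℝ} (d : Dep X n f) : Measurable[M U n] f ∧ Integrable f P := by
  let Z : Ω → Fin (n + 1) → ℕ := fun ω i => X i ω
  have mZ : Measurable[M U n] Z := @measurable_pi_lambda _ _ _ (M U n) _ _ fun i => h.mx n i i.is_le
  have fa : Function.FactorsThrough f Z := fun ω ω' e => d ω ω' fun i l => congrFun e ⟨i, by omega⟩
  obtain ⟨φ, rfl⟩ : ∃ φ, f = φ ∘ Z := ⟨_, (fa.extend_comp fun _ => 0).symm⟩
  have m := (measurable_of_countable φ).comp mZ
  obtain ⟨b, hb⟩ := ((Set.finite_Iic fun _ : Fin (n + 1) => 2 ^ n).image fun z => ‖φ z‖).bddAbove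
  exact ⟨m, .of_bound (m.mono (h.mle n) le_rfl).aestronglyMeasurable b (.of_forall fun ω =>
    hb ⟨_, fun i => (h.mono ω i.is_le).trans (h.two n ω), rfl⟩)⟩

lemma avg {n : ℕ} (G : Fin (n + 1) → Ω → ℝ) (d : ∀ k, Dep X n (G k)) :
    ∫ ω, G (U n ω) ω ∂P = ∫ ω, (∑ k, G k ω) / (n + 1) ∂P := by
  have I : Indep (M U n) (MeasurableSpace.comap (U n) inferInstance) P := by
    have := indep_iSup_of_disjoint (fun j => (h.me j).comap_le) h.ind.iIndep (S := Set.Iio n) (T := {n}) (by simp)
    simpa [M] using this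
  have a (k) : ∫ ω, G k ω * (if U n ω = k then 1 else 0) ∂P = (∫ ω, G k ω ∂P) / (n + 1) := by
    have J : IndepFun (G k) (U n) P := indep_of_indep_of_le_left I (h.dep (d k)).1.comap_le
    have K : IndepFun (G k) (fun ω => if U n ω = k then (1 : ℝ) else 0) P :=
      J.comp measurable_id (measurable_of_countable fun j => if j = k then (1 : ℝ) else 0)
    rw [K.integral_fun_mul_eq_mul_integral (h.dep (d k)).2.1
      ((measurable_of_countable fun j => if j = k then (1 : ℝ) else 0).comp (h.me n)).aestronglyMeasurable,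
      div_eq_mul_one_div, ← h.un n k, ← integral_indicator_one (s := {ω | U n ω = k}) (h.me n (measurableSet_singleton k))]
    simp [Set.indicator_apply]
  rw [integral_div, integral_finsetSum _ fun k _ => (h.dep (d k)).2, sum_div, ← sum_congr rfl fun k _ => a k,
    ← integral_finsetSum _ fun k _ => ?_]
  · simp
  · refine ((h.dep (d k)).2.indicator (h.me n (measurableSet_singleton k))).congr (.of_forall fun ω => ?_)
    by_cases e : U n ω = k <;> simp [Set.indicator, e]

lemma ix (n m : ℕ) : Integrable (fun ω => (X n ω : ℝ) ^ m) P := (h.dep fun ω ω' e => by rw [e n le_rfl]).2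

lemma pos {f : Ω → ℝ} (i : Integrable f P) (l : ∀ ω, 1 ≤ f ω) : 0 < ∫ ω, f ω ∂P :=
  one_pos.trans_le (by simpa using integral_mono (integrable_const (1 : ℝ)) i l)

lemma upper (m : ℕ) : ∀ᶠ n : ℕ in atTop, log (∫ ω, (X n ω : ℝ) ^ m ∂P) ≤ exp (0.4 * m + 1) * √n := by
  obtain ⟨θ, θ0, hθ⟩ := num m
  set G : ℝ := 1359 / 1000 * (149 / 100) ^ m
  have G0 : 0 < G := by positivity
  have hG : 2 * G < exp (0.4 * m + 1) := by
    have a : (149 / 100 : ℝ) ≤ exp 0.4 := by
      have := sum_le_exp_of_nonneg (show (0 : ℝ) ≤ 0.4 by norm_num) 4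
      simp only [sum_range_succ, Nat.factorial] at this
      norm_num at this ⊢
      linarith
    have b := pow_le_pow_left₀ (by norm_num) a m
    have c : (0 : ℝ) < (149 / 100) ^ m := by positivity
    rw [exp_add, mul_comm 0.4, exp_nat_mul]
    simp only [G]
    nlinarith [exp_one_gt_d9, mul_le_mul_of_nonneg_right b (exp_pos 1).le]
  obtain ⟨g, g1, g2⟩ := exists_between (show G < exp (0.4 * m + 1) / 2 by linarith)
  let S : ℕ → Ω → ℝ := fun n ω => ∑ i ∈ range (n + 1), (X i ω : ℝ)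
  let Y : ℕ → Ω → ℝ := fun n ω => X n ω + θ / √(n + 1) * S n ω
  have S0 (n ω) : 0 ≤ S n ω := sum_nonneg fun _ _ => by positivity
  have X1 (n ω) : (1 : ℝ) ≤ X n ω := by exact_mod_cast h.one n ω
  have XY (n ω) : X n ω ≤ Y n ω := le_add_of_nonneg_right (mul_nonneg (by positivity) (S0 n ω))
  have dY {n ω ω'} (e : ∀ i ≤ n, X i ω = X i ω') : Y n ω = Y n ω' := by
    simp only [Y, S]
    rw [e n le_rfl, sum_congr rfl fun i hi => by rw [e i (by simpa [Nat.lt_succ_iff] using hi)]]
  have iY (n) : Integrable (fun ω => Y n ω ^ m) P := (h.dep fun ω ω' e => by rw [dY e]).2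
  have T : Tendsto (fun n : ℕ => (1 + 2 * (θ / √(n + 1))) ^ m * G) atTop (𝓝 ((1 + 2 * 0) ^ m * G)) :=
    ((((sq_top'.const_div_atTop θ).const_mul 2).const_add 1).pow m).mul_const G
  have key := up (V := fun n => ∫ ω, Y n ω ^ m ∂P) (g := g) (c := exp (0.4 * m + 1))
    (fun n => h.pos (iY n) fun ω => one_le_pow₀ ((X1 n ω).trans (XY n ω))) (by linarith) (by linarith) (by
    filter_upwards [T.eventually_lt_const (u := g) (by simpa)] with n l
    set a := θ / √(n + 1)
    have s0 : 0 < √(n + 1 : ℝ) := by positivity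
    have a0 : 0 < a := by positivity
    have D (k : Fin (n + 1)) : Dep X n fun ω => (Y n ω + a * X n ω + (1 + a) * X k ω) ^ m := fun ω ω' e => by
      simp only [dY e, e n le_rfl, e k k.is_le]
    have D' : Dep X (n + 1) fun ω => (Y n ω + a * X n ω + (1 + a) * X (U n ω) ω) ^ m := fun ω ω' e => by
      have := e _ le_rfl
      rw [h.xs, h.xs, e n n.le_succ, add_right_inj] at this
      simp only [dY fun i l => e i (l.trans n.le_succ), e n n.le_succ, this]
    refine (integral_mono (iY _) (h.dep D').2 fun ω => ?_).trans ?_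
    · have := S0 (n + 1) ω
      refine pow_le_pow_left₀ (by linarith [X1 (n + 1) ω, XY (n + 1) ω]) ?_ m
      have b : θ / √((n + 1 : ℕ) + 1) ≤ a := by
        simp only [a]
        gcongr
        simp
      have c : S (n + 1) ω = S n ω + X n ω + X (U n ω) ω := by simp only [S]; rw [sum_range_succ, h.xs]; push_cast; ring
      have d := mul_le_mul_of_nonneg_right b this
      simp only [Y]
      rw [c] at d ⊢
      rw [h.xs]
      push_cast at d ⊢
      linarith
    rw [h.avg _ D, ← integral_const_mul]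
    refine integral_mono ((integrable_finsetSum _ fun k _ => (h.dep (D k)).2).div_const _) ((iY n).const_mul _)
      fun ω => ?_
    have Y0 : 0 < Y n ω := by linarith [X1 n ω, XY n ω]
    set r := X n ω / Y n ω with hr
    have r1 : r ≤ 1 := (div_le_one Y0).2 (XY n ω)
    have r0 : 0 ≤ r := by positivity
    set s := ∑ i ∈ range m, (1 + r) ^ i
    have b (k : Fin (n + 1)) : (Y n ω + a * X n ω + (1 + a) * X k ω) ^ m ≤
        Y n ω ^ m * (1 + (1 + 2 * a) ^ m * (a * m * r + X k ω / Y n ω * s)) := by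
      rw [show Y n ω + a * X n ω + (1 + a) * X k ω = Y n ω * (1 + a * r + (1 + a) * (X k ω / Y n ω)) by
        rw [hr]; field_simp, mul_pow]
      refine mul_le_mul_of_nonneg_left (pt r1 (by positivity) ?_ a0.le m) (by positivity)
      exact div_le_div_of_nonneg_right (by exact_mod_cast h.mono ω k.is_le) Y0.le
    have c : ∑ k : Fin (n + 1), (X k ω : ℝ) = (1 - r) * Y n ω / a := by
      rw [Fin.sum_univ_eq_sum_range (fun i => (X i ω : ℝ)), hr, eq_div_iff a0.ne', sub_mul, div_mul_cancel₀ _ Y0.ne']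
      simp only [Y, S]
      ring
    have t := sq_sqrt (show (0 : ℝ) ≤ n + 1 by positivity)
    have e : (∑ k : Fin (n + 1), Y n ω ^ m * (1 + (1 + 2 * a) ^ m * (a * m * r + X k ω / Y n ω * s))) / (n + 1) =
        (1 + (1 + 2 * a) ^ m * (m * θ * r + (1 - r) * s / θ) / √(n + 1)) * Y n ω ^ m := by
      simp only [← mul_sum, sum_add_distrib, ← sum_mul, ← sum_div, c, sum_const, card_univ, Fintype.card_fin,
        nsmul_eq_mul]
      push_cast
      have : θ = a * √(n + 1) := by simp only [a]; field_simp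
      rw [this]
      generalize √(n + 1 : ℝ) = u at *
      rw [← t]
      field_simp
    refine (div_le_div_of_nonneg_right (sum_le_sum fun k _ => b k) (by positivity)).trans (e.trans_le ?_)
    gcongr
    exact (mul_le_mul_of_nonneg_left (hθ r r0 r1) (by positivity)).trans l.le)
  filter_upwards [key] with n l
  refine (log_le_log (h.pos (h.ix n m) fun ω => one_le_pow₀ (X1 n ω)) ?_).trans l
  exact integral_mono (h.ix n m) (iY n) fun ω => pow_le_pow_left₀ (by positivity) (XY n ω) m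

lemma lower {m : ℕ} (hm : 1 ≤ m) : ∀ᶠ n : ℕ in atTop, exp (0.3 * m) * √n ≤ log (∫ ω, (X n ω : ℝ) ^ m ∂P) := by
  set c := exp (0.3 * m)
  have c0 : 0 < c := exp_pos _
  set K : ℝ := 2 ^ m - 1
  have hK : c ^ 2 / 2 ≤ K := by
    have a : c ^ 2 ≤ 2 ^ m := by
      rw [← exp_nat_mul, show (2 : ℕ) * (0.3 * m : ℝ) = m * 0.6 by push_cast; ring, exp_nat_mul]
      refine pow_le_pow_left₀ (exp_pos _).le ?_ m
      rw [← le_log_iff_exp_le two_pos]
      linarith [log_two_gt_d9]
    have b : (2 : ℝ) ^ 1 ≤ 2 ^ m := pow_le_pow_right₀ one_le_two hm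
    simp only [K]
    linarith
  let A : ℕ → ℝ := fun n => ∫ ω, (X n ω : ℝ) ^ m ∂P
  let B : ℕ → ℝ := fun n => ∑ i ∈ range (n + 1), A i
  have A0 (n) : 0 < A n := h.pos (h.ix n m) fun ω => one_le_pow₀ (by exact_mod_cast h.one n ω)
  have B0 (n) : 0 ≤ B n := sum_nonneg fun i _ => (A0 i).le
  have BA (n) : B n ≤ (n + 1) * A n := by
    have := sum_le_card_nsmul (range (n + 1)) A (A n) fun i hi => integral_mono (h.ix i m) (h.ix n m) fun ω =>
      pow_le_pow_left₀ (by positivity) (Nat.cast_le.2 (h.mono ω (show i ≤ n by simpa [Nat.lt_succ_iff] using hi))) m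
    simpa using this
  have rc (n) : A n + K * B n / (n + 1) ≤ A (n + 1) := by
    have D (k : Fin (n + 1)) : Dep X n fun ω => ((X n ω : ℝ) + X k ω) ^ m := fun ω ω' e => by
      simp only [e n le_rfl, e k k.is_le]
    have e : A (n + 1) = ∫ ω, ((X n ω : ℝ) + X (U n ω) ω) ^ m ∂P := by simp [A, h.xs]
    rw [e, h.avg _ D, integral_div, integral_finsetSum _ fun k _ => (h.dep (D k)).2, le_div_iff₀ (by positivity)]
    refine le_trans (le_of_eq ?_) (sum_le_sum (f := fun k : Fin (n + 1) => A n + K * A k) fun k _ => ?_)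
    · simp only [sum_add_distrib, ← mul_sum, B, Fin.sum_univ_eq_sum_range A]
      simp
      field_simp
    · simp only [A]
      rw [← integral_const_mul, ← integral_add (h.ix _ _) ((h.ix _ _).const_mul _)]
      refine integral_mono ((h.ix _ _).add ((h.ix _ _).const_mul _)) (h.dep (D k)).2 fun ω => ?_
      have l : (X k ω : ℝ) ≤ X n ω := by exact_mod_cast h.mono ω k.is_le
      have y0 : (0 : ℝ) ≤ X k ω := by positivity
      simp only [K]
      generalize (X k ω : ℝ) = y at *
      generalize (X n ω : ℝ) = x at *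
      clear * - l y0
      induction m with
      | zero => simp
      | succ m ih =>
        have a := mul_le_mul_of_nonneg_right ih (show 0 ≤ x + y by linarith)
        have b := pow_le_pow_left₀ y0 l m
        have c : (1 : ℝ) ≤ 2 ^ m := one_le_pow₀ one_le_two
        have d := pow_nonneg y0 m
        simp only [pow_succ]
        nlinarith [mul_le_mul_of_nonneg_left b y0, mul_nonneg (mul_nonneg (sub_nonneg.2 c) d) (sub_nonneg.2 l)]
  have key := lo (V := fun n => A n + 0.6 * c * B n / √(n + 1)) (g := 0.55 * c) (c := 1.05 * c)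
    (fun n => by have := A0 n; have := B0 n; positivity) (by positivity) (by linarith) (by
    filter_upwards [sq_top'.eventually_ge_atTop (11 + 4 / c)] with n l
    have r := rc n
    have e : B (n + 1) = B n + A (n + 1) := sum_range_succ _ _
    have s := sq_sqrt (show (0 : ℝ) ≤ n + 1 by positivity)
    have t := sq_sqrt (show (0 : ℝ) ≤ n + 1 + 1 by positivity)
    have t0 : 0 < √(n + 1 + 1 : ℝ) := by positivity
    have a0 := A0 n
    have b0 := B0 n
    have c4 : 0 < 4 / c := by positivity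
    have c5 : c * (4 / c) = 4 := by field_simp
    push_cast
    rw [e]
    generalize √(n + 1 + 1 : ℝ) = v at *
    rw [← s] at r t
    generalize √(n + 1 : ℝ) = u at *
    generalize A (n + 1) = a' at *
    generalize A n = a at *
    generalize B n = b at *
    have u0 : 0 < u := by linarith
    have uv : u ≤ v := by nlinarith
    have vu : v ≤ u + 1 := by nlinarith
    have p1 : 0.55 * c / u ≤ 0.6 * c / v := by
      rw [div_le_div_iff₀ u0 t0]
      nlinarith
    have p2 : 0.6 * c / u + 0.33 * c ^ 2 / u ^ 2 ≤ 0.6 * c / v + K / u ^ 2 := by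
      have q1 : 1 / u - 1 / v ≤ 1 / u ^ 3 := by
        rw [div_sub_div _ _ u0.ne' t0.ne', div_le_div_iff₀ (by positivity) (by positivity)]
        have : (v - u) * u ≤ 1 := by nlinarith
        nlinarith [mul_le_mul_of_nonneg_right this (sq_nonneg u), mul_le_mul_of_nonneg_left uv u0.le]
      have q2 : 0.6 * c * (1 / u ^ 3) ≤ 0.17 * c ^ 2 / u ^ 2 := by
        rw [mul_one_div, div_le_div_iff₀ (by positivity) (by positivity)]
        have : 4 ≤ c * u := by nlinarith
        nlinarith [mul_le_mul_of_nonneg_right this (show 0 ≤ c * u ^ 2 by positivity), mul_pos c0 (pow_pos u0 2)]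
      have q3 : 0.17 * c ^ 2 / u ^ 2 + 0.33 * c ^ 2 / u ^ 2 ≤ K / u ^ 2 := by
        rw [← add_div]
        exact div_le_div_of_nonneg_right (by linarith) (by positivity)
      have q4 := mul_le_mul_of_nonneg_left q1 (show 0 ≤ 0.6 * c by positivity)
      rw [mul_sub, mul_one_div, mul_one_div] at q4
      linarith
    have K0 : 0 ≤ K * b / u ^ 2 := by have : 0 ≤ K := by nlinarith
                                      positivity
    have w : 0 ≤ 0.6 * c / v := by positivity
    have e1 : (1 + 0.55 * c / u) * (a + 0.6 * c * b / u) =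
      a + 0.55 * c / u * a + (0.6 * c / u + 0.33 * c ^ 2 / u ^ 2) * b := by field_simp; ring
    have e2 : a' + 0.6 * c * (b + a') / v = a' + 0.6 * c / v * a' + 0.6 * c / v * b := by ring
    have e3 : K * b / u ^ 2 = K / u ^ 2 * b := by ring
    rw [e1, e2]
    nlinarith [mul_le_mul_of_nonneg_right p1 a0.le, mul_le_mul_of_nonneg_right p2 b0,
      mul_le_mul_of_nonneg_left (show a ≤ a' by linarith) w])
  filter_upwards [key, sq_top.eventually_ge_atTop (1 + 960 / c)] with n l q
  have s := sq_sqrt (show (0 : ℝ) ≤ n + 1 by positivity)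
  have t := sq_sqrt (show (0 : ℝ) ≤ n by positivity)
  have s0 : 0 < √(n + 1 : ℝ) := by positivity
  have a0 := A0 n
  have b0 := B0 n
  have a : A n + 0.6 * c * B n / √(n + 1) ≤ A n * exp (0.05 * c * √n) := by
    have b := BA n
    have c4 : 0 < 960 / c := by positivity
    have c5 : c * (960 / c) = 960 := by field_simp
    have d := quadratic_le_exp_of_nonneg (show 0 ≤ 0.05 * c * √n by positivity)
    rw [← s] at b
    generalize √(n + 1 : ℝ) = u at *
    generalize √(n : ℝ) = v at *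
    have uv : u ≤ 2 * v := by nlinarith
    have e : 0.6 * c * B n / u ≤ A n * (0.6 * c * u) := by
      rw [div_le_iff₀ s0]
      nlinarith
    have f : 960 ≤ c * v := by nlinarith
    have g : 1 + 0.6 * c * u ≤ exp (0.05 * c * v) := by nlinarith
    nlinarith
  have := log_le_log (by positivity) a
  rw [log_mul a0.ne' (exp_pos _).ne', log_exp] at this
  linarith

end Su

theorem main (h : Su P U X) {m : ℕ} (hm : 1 ≤ m) :
    (∀ᶠ n : ℕ in atTop, exp (0.3 * m) ≤ log (∫ ω, (X n ω : ℝ) ^ m ∂P) / √n ∧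
      log (∫ ω, (X n ω : ℝ) ^ m ∂P) / √n ≤ exp (0.4 * m + 1)) ∧
    ∀ c, Tendsto (fun n : ℕ => log (∫ ω, (X n ω : ℝ) ^ m ∂P) / √n) atTop (𝓝 c) →
      0 < c ∧ 0.3 * m ≤ log c ∧ log c ≤ 0.4 * m + 1 := by
  have a : ∀ᶠ n : ℕ in atTop, exp (0.3 * m) ≤ log (∫ ω, (X n ω : ℝ) ^ m ∂P) / √n ∧
      log (∫ ω, (X n ω : ℝ) ^ m ∂P) / √n ≤ exp (0.4 * m + 1) := by
    filter_upwards [h.lower hm, h.upper m, eventually_gt_atTop 0] with n p q r
    have : 0 < √(n : ℝ) := by positivity
    exact ⟨(le_div_iff₀ this).2 p, (div_le_iff₀ this).2 q⟩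
  refine ⟨a, fun c t => ?_⟩
  have p := ge_of_tendsto t (a.mono fun _ l => l.1)
  have q := le_of_tendsto t (a.mono fun _ l => l.2)
  have c0 := (exp_pos _).trans_le p
  exact ⟨c0, (le_log_iff_exp_le c0).2 p, (log_le_iff_le_exp c0).2 q⟩

end Pool.Agent.H.MP_a2947a_pr
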